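import Pool.Agent.helper95.T5.SpecN

/-!
# Row t5:RE1 (general residues)
-/

set_option autoImplicit false

namespace Pool.Agent.T5

open Finset NumberField Pool.Agent.helper3.FT Pool.Agent.helper47.RA

theorem RE1 : RE1_stmt := by
  intro n k q₁ q₂ r s h h1 h2
  have hn : IsCoprime n (k * s) := h.of_mul_left_left
  have hr : IsCoprime r (k * s) := h.of_mul_left_right
  have hnk : IsCoprime n k := hn.of_mul_right_left
  have hns : IsCoprime n s := hn.of_mul_right_right
  have hrk : IsCoprime r k := hr.of_mul_right_left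
  have hrs : IsCoprime r s := hr.of_mul_right_right
  have h1n : IsCoprime q₁ n := h1.of_mul_right_left
  have h1r : IsCoprime q₁ r := h1.of_mul_right_right
  obtain ⟨u, v, huv⟩ : IsCoprime (q₂ * (n ^ 5 * r)) (k * s) :=
    h2.mul_left (hn.pow_left.mul_left hr)
  have hs3 : IsCoprime s (n ^ 3 * r) := hns.symm.pow_right.mul_right hrs.symm
  have hk3 : IsCoprime k (n ^ 3 * r) := hnk.symm.pow_right.mul_right hrk.symm
  have hq3 : IsCoprime q₁ (n ^ 3 * r) := h1n.pow_right.mul_right h1r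
  obtain ⟨u', v', huv'⟩ : IsCoprime (k ^ 3 * s) (n ^ 3 * r) := hk3.pow_left.mul_left hs3
  obtain ⟨u'', v'', huv''⟩ : IsCoprime (q₁ * (k ^ 5 * s)) (n ^ 3 * r) :=
    hq3.mul_left (hk3.pow_left.mul_left hs3)
  refine ⟨u * q₁ * (n ^ 3 * r), -u' * (k * s), u'' * q₂ * n ^ 2 * (k * s), ?_, ?_, ?_, ?_, ?_, ?_⟩
  · exact Dvd.intro_left _ rfl
  · exact ⟨v', by linear_combination (-1 : ℤ) * huv'⟩
  · exact ⟨-(q₂ * n ^ 2 * v''), by linear_combination q₂ * n ^ 2 * huv''⟩
  · exact ⟨-(q₁ * v), by linear_combination q₁ * huv⟩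
  · exact Dvd.intro_left _ rfl
  · exact Dvd.intro_left _ rfl

end Pool.Agent.T5
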