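import Pool.Agent.helper26.T5.SpecA

/-!
# Row t5:LA1 (upper bound for the number of lattice points), with the cells of the lattice
-/

set_option autoImplicit false

namespace Pool.Agent.helper26.T5

open MeasureTheory

/-- the linear map `x + i y ↦ x e₁ + y e₂` -/
noncomputable def LA1_A (e₁ e₂ : ℂ) : ℂ →ₗ[ℝ] ℂ :=
  Complex.reLm.smulRight e₁ + Complex.imLm.smulRight e₂

theorem LA1_A_apply (e₁ e₂ z : ℂ) : LA1_A e₁ e₂ z = z.re * e₁ + z.im * e₂ := by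
  simp [LA1_A]

theorem LA1_det (e₁ e₂ : ℂ) : |LinearMap.det (LA1_A e₁ e₂)| = cov e₁ e₂ := by
  unfold cov
  rw [← LinearMap.det_toMatrix Complex.basisOneI, Matrix.det_fin_two]
  simp only [LinearMap.toMatrix_apply, Complex.coe_basisOneI, Complex.coe_basisOneI_repr,
    LA1_A_apply]
  congr 1
  simp
  ring

/-- the rectangle of side one -/
def LA1_R (p : ℤ × ℤ) : Set ℂ := Set.Ico (p.1 : ℝ) (p.1 + 1) ×ℂ Set.Ico (p.2 : ℝ) (p.2 + 1)

theorem LA1_vol (p : ℤ × ℤ) : volume (LA1_R p) = 1 := by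
  have h1 : LA1_R p = Complex.measurableEquivRealProd ⁻¹'
      (Set.Ico (p.1 : ℝ) (p.1 + 1) ×ˢ Set.Ico (p.2 : ℝ) (p.2 + 1)) := rfl
  rw [h1, Complex.volume_preserving_equiv_real_prod.measure_preimage_equiv, Measure.volume_eq_prod,
    Measure.prod_prod, Real.volume_Ico, Real.volume_Ico]
  simp

theorem LA1_meas (p : ℤ × ℤ) : MeasurableSet (LA1_R p) :=
  Complex.measurableEquivRealProd.measurable (measurableSet_Ico.prod measurableSet_Ico)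

/-- the cell of the lattice with the corner `p` -/
def LA1_C (v e₁ e₂ : ℂ) (p : ℤ × ℤ) : Set ℂ := (fun w => w + (-v)) ⁻¹' (LA1_A e₁ e₂ '' LA1_R p)

theorem LA1_C_vol (v e₁ e₂ : ℂ) (p : ℤ × ℤ) :
    volume (LA1_C v e₁ e₂ p) = ENNReal.ofReal (cov e₁ e₂) := by
  unfold LA1_C
  rw [measure_preimage_add_right, Measure.addHaar_image_linearMap, LA1_vol, LA1_det, mul_one]

theorem LA1_C_mem (v e₁ e₂ w : ℂ) (p : ℤ × ℤ) (h : w ∈ LA1_C v e₁ e₂ p) :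
    ∃ u : ℂ, ‖u‖ ≤ ‖e₁‖ + ‖e₂‖ ∧ w = lp v e₁ e₂ p + u := by
  obtain ⟨z, ⟨hz1, hz2⟩, hz⟩ := h
  rw [LA1_A_apply] at hz
  have hz1' : (p.1 : ℝ) ≤ z.re ∧ z.re < p.1 + 1 := hz1
  have hz2' : (p.2 : ℝ) ≤ z.im ∧ z.im < p.2 + 1 := hz2
  refine ⟨((z.re - p.1 : ℝ) : ℂ) * e₁ + ((z.im - p.2 : ℝ) : ℂ) * e₂, ?_, ?_⟩
  · refine (norm_add_le _ _).trans (add_le_add ?_ ?_)
    · rw [norm_mul, Complex.norm_real, Real.norm_eq_abs]
      exact mul_le_of_le_one_left (norm_nonneg _) (abs_le.2 ⟨by linarith, by linarith⟩)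
    · rw [norm_mul, Complex.norm_real, Real.norm_eq_abs]
      exact mul_le_of_le_one_left (norm_nonneg _) (abs_le.2 ⟨by linarith, by linarith⟩)
  · have hw : w = v + (z.re * e₁ + z.im * e₂) := by rw [hz]; ring
    rw [hw]
    unfold lp
    push_cast
    ring

theorem LA1_inj {e₁ e₂ : ℂ} (h : 0 < cov e₁ e₂) : Function.Injective (LA1_A e₁ e₂) := by
  have h1 : LinearMap.det (LA1_A e₁ e₂) ≠ 0 := by
    intro h0
    rw [← LA1_det, h0, abs_zero] at h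
    exact lt_irrefl _ h
  have h2 : Function.Injective (LinearMap.equivOfDetNeZero (LA1_A e₁ e₂) h1) :=
    (LinearMap.equivOfDetNeZero (LA1_A e₁ e₂) h1).injective
  exact h2

theorem LA1_surj {e₁ e₂ : ℂ} (h : 0 < cov e₁ e₂) : Function.Surjective (LA1_A e₁ e₂) := by
  have h1 : LinearMap.det (LA1_A e₁ e₂) ≠ 0 := by
    intro h0
    rw [← LA1_det, h0, abs_zero] at h
    exact lt_irrefl _ h
  have h2 : Function.Surjective (LinearMap.equivOfDetNeZero (LA1_A e₁ e₂) h1) :=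
    (LinearMap.equivOfDetNeZero (LA1_A e₁ e₂) h1).surjective
  exact h2

theorem LA1_C_meas (v : ℂ) {e₁ e₂ : ℂ} (h : 0 < cov e₁ e₂) (p : ℤ × ℤ) :
    MeasurableSet (LA1_C v e₁ e₂ p) := by
  have hc : Continuous (LA1_A e₁ e₂) := LinearMap.continuous_of_finiteDimensional _
  have h1 : MeasurableSet (LA1_A e₁ e₂ '' LA1_R p) :=
    (LA1_meas p).image_of_continuousOn_injOn hc.continuousOn (LA1_inj h).injOn
  exact (measurable_id.add_const (-v)) h1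

theorem LA1_C_disj (v : ℂ) {e₁ e₂ : ℂ} (h : 0 < cov e₁ e₂) (p p' : ℤ × ℤ) (hp : p ≠ p') :
    Disjoint (LA1_C v e₁ e₂ p) (LA1_C v e₁ e₂ p') := by
  rw [Set.disjoint_left]
  rintro w ⟨z, ⟨hz1, hz2⟩, hz⟩ ⟨z', ⟨hz1', hz2'⟩, hz'⟩
  have hzz : z = z' := LA1_inj h (hz.trans hz'.symm)
  subst hzz
  apply hp
  refine Prod.ext ?_ ?_
  · have h1 : ⌊z.re⌋ = p.1 := Int.floor_eq_iff.2 ⟨hz1.1, hz1.2⟩
    have h2 : ⌊z.re⌋ = p'.1 := Int.floor_eq_iff.2 ⟨hz1'.1, hz1'.2⟩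
    rw [← h1, h2]
  · have h1 : ⌊z.im⌋ = p.2 := Int.floor_eq_iff.2 ⟨hz2.1, hz2.2⟩
    have h2 : ⌊z.im⌋ = p'.2 := Int.floor_eq_iff.2 ⟨hz2'.1, hz2'.2⟩
    rw [← h1, h2]

theorem LA1_C_cover (v : ℂ) {e₁ e₂ : ℂ} (h : 0 < cov e₁ e₂) (w : ℂ) :
    ∃ p : ℤ × ℤ, w ∈ LA1_C v e₁ e₂ p := by
  obtain ⟨z, hz⟩ := LA1_surj h (w + (-v))
  exact ⟨(⌊z.re⌋, ⌊z.im⌋), z, ⟨⟨Int.floor_le _, Int.lt_floor_add_one _⟩,
    ⟨Int.floor_le _, Int.lt_floor_add_one _⟩⟩, hz⟩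

theorem la1 : LA1 := by
  classical
  intro v e₁ e₂ d S T hcov hd hT hT' hST
  have hfin : ∀ G : Finset (ℤ × ℤ), (G : Set (ℤ × ℤ)) ⊆ {p : ℤ × ℤ | lp v e₁ e₂ p ∈ S} →
      cov e₁ e₂ * (G.card : ℝ) ≤ (volume T).toReal := by
    intro G hG
    have h1 : volume (⋃ p ∈ G, LA1_C v e₁ e₂ p) = ∑ p ∈ G, volume (LA1_C v e₁ e₂ p) :=
      measure_biUnion_finset (fun p _ p' _ hp => LA1_C_disj v hcov p p' hp)
        (fun p _ => LA1_C_meas v hcov p)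
    have h2 : (⋃ p ∈ G, LA1_C v e₁ e₂ p) ⊆ T := by
      refine Set.iUnion₂_subset fun p hp w hw => ?_
      obtain ⟨u, hu, rfl⟩ := LA1_C_mem v e₁ e₂ w p hw
      exact hST _ (hG (Finset.mem_coe.2 hp)) u (hu.trans hd)
    have h3 := measure_mono (μ := volume) h2
    rw [h1, Finset.sum_congr rfl (fun p _ => LA1_C_vol v e₁ e₂ p), Finset.sum_const,
      nsmul_eq_mul] at h3
    have h4 := ENNReal.toReal_mono hT' h3
    rw [ENNReal.toReal_mul, ENNReal.toReal_ofReal hcov.le, ENNReal.toReal_natCast] at h4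
    linarith [mul_comm (cov e₁ e₂) (G.card : ℝ)]
  have hf : {p : ℤ × ℤ | lp v e₁ e₂ p ∈ S}.Finite := by
    by_contra hinf
    obtain ⟨N, hN⟩ := exists_nat_gt ((volume T).toReal / cov e₁ e₂)
    obtain ⟨G, hG, hGc⟩ := Set.Infinite.exists_subset_card_eq hinf N
    have h1 := hfin G hG
    rw [hGc] at h1
    rw [div_lt_iff₀ hcov] at hN
    linarith [mul_comm (cov e₁ e₂) (N : ℝ)]
  refine ⟨hf, ?_⟩
  have h1 := hfin hf.toFinset (by rw [hf.coe_toFinset])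
  rwa [← Set.ncard_eq_toFinset_card _ hf] at h1

end Pool.Agent.helper26.T5
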