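import Pool.Agent.helper94.T5.SpecV

/-!
# Row t5:VDW (change of variables `w = c / n²`)
-/

set_option autoImplicit false

namespace Pool.Agent.T5V

open MeasureTheory Set
open scoped ENNReal

theorem VDW : VDW_stmt := by
  intro c hc Φ _
  have hinj : InjOn (fun n : ℝ => c / n ^ 2) (Ioi 0) := by
    intro x hx y hy hxy
    have hx' : (0 : ℝ) < x := hx
    have hy' : (0 : ℝ) < y := hy
    have h1 : c / x ^ 2 = c / y ^ 2 := hxy
    have h2 : x ^ 2 = y ^ 2 := by
      have hx2 : x ^ 2 ≠ 0 := by positivity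
      have hy2 : y ^ 2 ≠ 0 := by positivity
      rw [div_eq_div_iff hx2 hy2] at h1
      exact (mul_left_cancel₀ hc.ne' h1).symm
    exact (pow_left_inj₀ hx'.le hy'.le two_ne_zero).1 h2
  have himg : (fun n : ℝ => c / n ^ 2) '' Ioi 0 = Ioi 0 := by
    apply Subset.antisymm
    · rintro _ ⟨n, hn, rfl⟩
      have hn' : (0 : ℝ) < n := hn
      show 0 < c / n ^ 2
      positivity
    · intro w hw
      have hw' : (0 : ℝ) < w := hw
      refine ⟨√(c / w), ?_, ?_⟩
      · show 0 < √(c / w)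
        exact Real.sqrt_pos.2 (div_pos hc hw')
      · show c / √(c / w) ^ 2 = w
        rw [Real.sq_sqrt (div_pos hc hw').le]
        field_simp
  have hder : ∀ x ∈ Ioi (0 : ℝ), HasDerivWithinAt (fun n : ℝ => c / n ^ 2)
      (-(2 * c / x ^ 3)) (Ioi 0) x := by
    intro x hx
    have hx' : (0 : ℝ) < x := hx
    have h1 : HasDerivAt (fun n : ℝ => c / n ^ 2)
        ((0 * x ^ 2 - c * (((2 : ℕ) : ℝ) * x ^ (2 - 1))) / (x ^ 2) ^ 2) x :=
      (hasDerivAt_const x c).div (hasDerivAt_pow 2 x) (by positivity)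
    have h2 : (0 * x ^ 2 - c * (((2 : ℕ) : ℝ) * x ^ (2 - 1))) / (x ^ 2) ^ 2 = -(2 * c / x ^ 3) := by
      norm_num
      field_simp
    rw [h2] at h1
    exact h1.hasDerivWithinAt
  have h := lintegral_image_eq_lintegral_abs_deriv_mul measurableSet_Ioi hder hinj
    (fun w => Φ w * ENNReal.ofReal (1 / (2 * w)))
  rw [himg] at h
  rw [h]
  refine setLIntegral_congr_fun measurableSet_Ioi fun n hn => ?_
  have hn' : (0 : ℝ) < n := hn
  show Φ (c / n ^ 2) * ENNReal.ofReal (1 / n) = ENNReal.ofReal |-(2 * c / n ^ 3)| *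
    (Φ (c / n ^ 2) * ENNReal.ofReal (1 / (2 * (c / n ^ 2))))
  rw [mul_left_comm, ← ENNReal.ofReal_mul (abs_nonneg _), abs_neg,
    abs_of_pos (by positivity : 0 < 2 * c / n ^ 3)]
  congr 2
  field_simp

end Pool.Agent.T5V
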